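import Pool.Agent.Work.MP_ab49bb_gt.Fin

/-!
# The sign of the linear term of the coloured Jones degree for closed 3-braids

For every knot that is the closure of a 3-strand braid, except for the closures of the braids conjugate
to `σ_1 σ_2`, `σ_1⁻¹ σ_2⁻¹`, `σ_1 σ_2⁻¹` (unknots), the maximal degree of the `n`-coloured unnormalised
Jones polynomial is, for large `n`, a quadratic quasi-polynomial `a_j n^2 + 2 b_j n + c_j`, and in every
such description all linear coefficients satisfy `b_j ≤ 0`.
The definitions are in `Pool/Agent/Work/MP_ab49bb_gt/Defs.lean`.
-/

set_option autoImplicit false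

namespace Pool.Agent.Results.MP_ab49bb_gt.ClosedThreeBraids

open Pool.Agent.KT

/-- For every braid word `w` on three strands whose closure is a knot: `w` is conjugate to one of the
three trivial braids, or the degree of the coloured Jones polynomial is a quadratic quasi-polynomial for
large `n` and all its linear coefficients are `≤ 0`. -/
theorem result (w : List Letter) (hw : IsKnot w) : IsTriv w ∨
    ((∃ p a b c, DegQ w p a b c) ∧ ∀ p a b c, DegQ w p a b c → ∀ j < p, b j ≤ 0) :=
  main hw

end Pool.Agent.Results.MP_ab49bb_gt.ClosedThreeBraids
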