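import Pool.Agent.Work.MP_ab49bb_gt.Sat.Fin

/-!
# The sign of the linear term of the coloured Jones degree: satellites of arbitrary knots

Let `C` be any knot, given as the closure of a braid word `β` on `N` strands, `M` a noncrossing perfect
matching of the `m` strands of a pattern, and `P` a list of pieces compatible with `M`: letters `σ_k` where
`k, k + 1` are not matched, letters `σ_k⁻¹` where they are, and negative full twists on intervals that are
closed under `M`. Let `d ≥ length β + N`. Then the degree of the `n`-coloured unnormalised Jones polynomial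
of the closure of `sat m β d P` (the `m`-cable of `β`, followed by `d` negative full twists and `P` on the
first `m` strands) is `(m² (d - e(β)) + s) (n² - 1) - 2 p (n - 1)` for all `n ≥ 1`, `p` the number of the
letters `σ_k` of `P`; so it is a quadratic polynomial and in every description as a quadratic
quasi-polynomial all linear coefficients are `-p ≤ 0`.
The definitions are in `Pool/Agent/Work/MP_ab49bb_gt/Sat/Defs.lean` (and, for the braiding `S`, in
`Pool/Agent/Work/MP_ab49bb_gt/Defs.lean`).
-/

set_option autoImplicit false

namespace Pool.Agent.Results.MP_ab49bb_gt.MatchedSatellites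

open Pool.Agent.KS

/-- The degree of the coloured Jones polynomial of `sat m β d P` for every colour `n ≥ 1`, and the sign of
the linear coefficient. -/
theorem result {N m : ℕ} {β : List Lt} (hβ : IsKnot N β) {M : ℕ → ℕ} (hM : NC m M)
    {P : List Piece} (hP : ∀ p ∈ P, Compat m M p) {d : ℕ} (hd : β.length + N ≤ d) :
    (∀ n : ℕ, 1 ≤ n → (cj (N * m) (sat m β d P) n).degree =
      ((((m : ℤ) ^ 2 * (d - ex β) + sl P) * ((n : ℤ) ^ 2 - 1) - 2 * np P * (n - 1) : ℤ) :
        WithBot ℤ)) ∧
    (∃ p a b c, DegQ (N * m) (sat m β d P) p a b c) ∧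
    ∀ p a b c, DegQ (N * m) (sat m β d P) p a b c → ∀ j < p, b j = -(np P : ℚ) ∧ b j ≤ 0 := by
  obtain ⟨h1, h2, h3⟩ := main hβ hM hP hd
  refine ⟨h1, h2, fun p a b c hq j hj => ?_⟩
  have h4 := h3 p a b c hq j hj
  refine ⟨h4, ?_⟩
  rw [h4]
  exact neg_nonpos.2 (Nat.cast_nonneg _)

end Pool.Agent.Results.MP_ab49bb_gt.MatchedSatellites
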